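import Pool.Agent.helper82.SC.SpecC

/-! # LIM: limit functions along an ultrafilter -/

namespace Pool.Agent.helper82.SC

open Relation Filter Topology Complex MeasureTheory
open scoped Interval

theorem LIM_compact : IsCompact Qs := by
  have h : Qs = (Complex.equivRealProdCLM : ℂ ≃L[ℝ] ℝ × ℝ) ⁻¹' (Set.Icc 0 1 ×ˢ Set.Icc 0 1) := by
    ext w
    simp only [Qs, Set.mem_setOf_eq, Set.mem_preimage, Set.mem_prod, Set.mem_Icc,
      Complex.equivRealProdCLM_apply]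
    tauto
  rw [h]
  have h2 : (Complex.equivRealProdCLM : ℂ ≃L[ℝ] ℝ × ℝ) ⁻¹' (Set.Icc 0 1 ×ˢ Set.Icc 0 1) =
      (Complex.equivRealProdCLM : ℂ ≃L[ℝ] ℝ × ℝ).symm '' (Set.Icc 0 1 ×ˢ Set.Icc 0 1) := by
    rw [ContinuousLinearEquiv.image_symm_eq_preimage]
  rw [h2]
  exact (isCompact_Icc.prod isCompact_Icc).image (ContinuousLinearEquiv.continuous _)

theorem LIM (hDN : DN_stmt) : LIM_stmt := by
  classical
  intro P hP 𝒰 h𝒰
  -- chosen darts
  have hex : ∀ (n : ℕ) (w : ℂ), 1 ≤ n → w ∈ Qs → ∃ x : Dart, FUn n x.1 ∧ ‖pd x - n * w‖ ≤ 4 :=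
    fun n w hn hw => hDN n hn w hw
  choose! X hXF hXd using hex
  -- limits
  have hlim : ∀ (j : Fin 3) (w : ℂ), w ∈ Qs → ∃ y : ℝ,
      Tendsto (fun n => P n j (X n w)) (𝒰 : Filter ℕ) (𝓝 y) := by
    intro j w hw
    have h1 : ((𝒰.map (fun n => P n j (X n w)) : Ultrafilter ℝ) : Filter ℝ) ≤
        𝓟 (Set.Icc (0 : ℝ) 1) := by
      rw [Ultrafilter.coe_map, le_principal_iff, mem_map]
      have h2 : ∀ᶠ n in (𝒰 : Filter ℕ), 1 ≤ n := h𝒰 (eventually_ge_atTop 1)
      filter_upwards [h2] with n hn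
      exact hP.bd n hn j _ (hXF n w hn hw)
    obtain ⟨y, -, hy⟩ := isCompact_Icc.ultrafilter_le_nhds _ h1
    exact ⟨y, hy⟩
  choose! h hh using hlim
  -- equicontinuity of the limits
  have hequi : ∀ ε : ℝ, 0 < ε → ∃ δ : ℝ, 0 < δ ∧
      (∀ w ∈ Qs, ∀ w' ∈ Qs, ‖w - w'‖ ≤ δ → ∀ j, |h j w - h j w'| ≤ ε) ∧
      ∃ N : ℕ, 1 ≤ N ∧ ∀ n ≥ N, ∀ (x : Dart) (w w' : ℂ), FUn n x.1 → w ∈ Qs → w' ∈ Qs →
        ‖w - w'‖ ≤ δ → ‖pd x - n * w‖ ≤ 8 → ∀ j, |P n j x - P n j (X n w')| ≤ ε := by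
    intro ε hε
    obtain ⟨δ, hδ, N, hN⟩ := hP.eq ε hε
    obtain ⟨M, hM⟩ := exists_nat_gt (24 / δ)
    have hMn : ∀ n : ℕ, M ≤ n → 12 ≤ (δ / 2) * n := by
      intro n hn
      have h1 : 24 / δ < n := hM.trans_le (by exact_mod_cast hn)
      rw [div_lt_iff₀ hδ] at h1
      linarith
    have hfar : ∀ n ≥ max (max N M) 1, ∀ (x : Dart) (w w' : ℂ), FUn n x.1 → w ∈ Qs → w' ∈ Qs →
        ‖w - w'‖ ≤ δ / 2 → ‖pd x - n * w‖ ≤ 8 → ∀ j, |P n j x - P n j (X n w')| ≤ ε := by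
      intro n hn x w w' hx hw hw' hww hxw j
      have hn1 : 1 ≤ n := (le_max_right _ _).trans hn
      have hnN : N ≤ n := (le_max_left _ _).trans ((le_max_left _ _).trans hn)
      have hnM : M ≤ n := (le_max_right _ _).trans ((le_max_left _ _).trans hn)
      refine hN n hnN x (X n w') hx (hXF n w' hn1 hw') ?_ j
      have h1 : pd x - pd (X n w') = (pd x - n * w) + n * (w - w') - (pd (X n w') - n * w') := by
        ring
      rw [h1]
      have h2 : ‖(n : ℂ) * (w - w')‖ ≤ (n : ℝ) * (δ / 2) := by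
        rw [norm_mul, Complex.norm_natCast]
        exact mul_le_mul_of_nonneg_left hww (Nat.cast_nonneg n)
      have h3 := hXd n w' hn1 hw'
      have h4 := hMn n hnM
      calc ‖(pd x - n * w) + n * (w - w') - (pd (X n w') - n * w')‖
          ≤ ‖(pd x - n * w) + n * (w - w')‖ + ‖pd (X n w') - n * w'‖ := norm_sub_le _ _
        _ ≤ ‖pd x - n * w‖ + ‖(n : ℂ) * (w - w')‖ + ‖pd (X n w') - n * w'‖ := by
            gcongr; exact norm_add_le _ _
        _ ≤ δ * n := by linarith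
    refine ⟨δ / 2, by linarith, ?_, max (max N M) 1, le_max_right _ _, hfar⟩
    intro w hw w' hw' hww j
    have h1 : Tendsto (fun n => |P n j (X n w) - P n j (X n w')|) (𝒰 : Filter ℕ)
        (𝓝 |h j w - h j w'|) := ((hh j w hw).sub (hh j w' hw')).abs
    refine le_of_tendsto h1 ?_
    have h2 : ∀ᶠ n in (𝒰 : Filter ℕ), max (max N M) 1 ≤ n := h𝒰 (eventually_ge_atTop _)
    filter_upwards [h2] with n hn
    have hn1 : 1 ≤ n := (le_max_right _ _).trans hn
    exact hfar n hn (X n w) w w' (hXF n w hn1 hw) hw hw' hww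
      ((hXd n w hn1 hw).trans (by norm_num)) j
  refine ⟨h, ?_, ?_⟩
  · intro j w hw
    rw [Metric.continuousWithinAt_iff]
    intro ε hε
    obtain ⟨δ, hδ, h1, -⟩ := hequi (ε / 2) (by linarith)
    refine ⟨δ, hδ, fun {w'} hw' hd => ?_⟩
    rw [Real.dist_eq]
    have h2 := h1 w' hw' w hw (by rw [← dist_eq_norm]; exact hd.le) j
    linarith
  · intro ε hε
    obtain ⟨δ, hδ, h1, N, hN1, h2⟩ := hequi (ε / 3) (by linarith)
    obtain ⟨t, htQ, htf, hcov⟩ := LIM_compact.finite_cover_balls hδ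
    have h3 : ∀ᶠ n in (𝒰 : Filter ℕ), ∀ y ∈ t, ∀ j : Fin 3, |P n j (X n y) - h j y| ≤ ε / 3 := by
      rw [htf.eventually_all]
      intro y hy
      rw [eventually_all]
      intro j
      have h4 := (hh j y (htQ hy))
      have h5 := Metric.tendsto_nhds.mp h4 (ε / 3) (by linarith)
      filter_upwards [h5] with n hn
      rw [Real.dist_eq] at hn
      exact hn.le
    have h4 : ∀ᶠ n in (𝒰 : Filter ℕ), N ≤ n := h𝒰 (eventually_ge_atTop N)
    filter_upwards [h3, h4] with n hn hnN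
    intro j x w hx hw hxw
    obtain ⟨y, hy, hwy⟩ := Set.mem_iUnion₂.mp (hcov hw)
    have hd : ‖w - y‖ ≤ δ := by
      rw [← dist_eq_norm]
      exact (Metric.mem_ball.mp hwy).le
    have e1 := h2 n hnN x w y hx hw (htQ hy) hd hxw j
    have e2 := hn y hy j
    have e3 := h1 y (htQ hy) w hw (by rw [norm_sub_rev]; exact hd) j
    have e4 : P n j x - h j w = (P n j x - P n j (X n y)) + (P n j (X n y) - h j y) +
        (h j y - h j w) := by ring
    rw [e4]
    calc |(P n j x - P n j (X n y)) + (P n j (X n y) - h j y) + (h j y - h j w)|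
        ≤ |(P n j x - P n j (X n y)) + (P n j (X n y) - h j y)| + |h j y - h j w| := abs_add_le _ _
      _ ≤ |P n j x - P n j (X n y)| + |P n j (X n y) - h j y| + |h j y - h j w| := by
          gcongr; exact abs_add_le _ _
      _ ≤ ε := by linarith

end Pool.Agent.helper82.SC
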